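import Pool.Agent.Helper84.SQ.GoalsD

/-! # Feasibility of the line far away (packet SQ-TAI) -/

namespace Pool.Agent.Helper33.SQ

open Pool.Agent.Helper84.SQ

theorem sum_abs_le {n : ℕ} (a X : Fin n → ℤ) (Δ : ℤ) (ha : ∀ j, |a j| ≤ 1) (hX : ∀ j, |X j| ≤ Δ) :
    |∑ j, a j * X j| ≤ n * Δ := by
  refine (Finset.abs_sum_le_sum_abs _ _).trans ?_
  have h : ∀ j ∈ (Finset.univ : Finset (Fin n)), |a j * X j| ≤ Δ := by
    intro j _
    rw [abs_mul]
    have h1 := ha j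
    have h2 := hX j
    have h3 := abs_nonneg (a j)
    have h4 := abs_nonneg (X j)
    nlinarith
  refine (Finset.sum_le_card_nsmul _ _ _ h).trans ?_
  simp

theorem tai : TaiStmt := by
  intro m n s W w q h D X Y τ τ' hS hD hDE hX hY hτ hτ' hF i
  have hi := hF i
  set Δ : ℤ := 2 ^ eE s with hΔ
  have hΔ2 : (2 : ℤ) ^ (2 * eE s) = Δ ^ 2 := by
    rw [hΔ, ← pow_mul, mul_comm]
  rw [hΔ2] at hτ hτ'
  have hDz : (D : ℤ) ≤ Δ := by
    rw [hΔ]
    exact_mod_cast hDE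
  have hD1 : (1 : ℤ) ≤ D := by exact_mod_cast hD
  have ha := sum_abs_le (fun j => W i j) X Δ (fun j => hS.W1 i j) hX
  have hb := sum_abs_le (fun j => W i j) Y Δ (fun j => hS.W1 i j) hY
  set a : ℤ := ∑ j, W i j * X j with hadef
  set b : ℤ := ∑ j, W i j * Y j with hbdef
  have key : ∀ t : ℤ, ∑ j, (W i j : ℝ) * pt D X Y t j = ((a + t * b : ℤ) : ℝ) / D := by
    intro t
    rw [hadef, hbdef]
    push_cast
    rw [Finset.mul_sum, ← Finset.sum_add_distrib, Finset.sum_div]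
    refine Finset.sum_congr rfl fun j _ => ?_
    simp only [pt]
    ring
  have hDr : (0 : ℝ) < D := by exact_mod_cast hD
  have conv : ∀ t : ℤ, (∑ j, (W i j : ℝ) * pt D X Y t j ≤ w i) ↔ a + t * b ≤ w i * D := by
    intro t
    rw [key, div_le_iff₀ hDr]
    exact_mod_cast Iff.rfl
  rw [conv] at hi ⊢
  have hn : (n : ℤ) + 2 ^ s < Δ := by
    have h1 : n < 2 ^ s := lt_of_le_of_lt hS.ns Nat.lt_two_pow_self
    have h2 : (n : ℤ) < 2 ^ s := by exact_mod_cast h1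
    have h3 : (2 : ℤ) ^ s + 2 ^ s ≤ Δ := by
      rw [hΔ, ← two_mul, ← pow_succ']
      refine pow_le_pow_right₀ (by norm_num) ?_
      have := hS.s2
      unfold eE
      nlinarith
    linarith
  have hΔ1 : 1 ≤ Δ := hD1.trans hDz
  have hw := hS.ws i
  have hw1 : |w i * D| ≤ 2 ^ s * Δ := by
    rw [abs_mul]
    have h1 : |(D : ℤ)| ≤ Δ := by
      rw [abs_of_nonneg (by linarith)]
      exact hDz
    exact mul_le_mul hw h1 (abs_nonneg _) (by positivity)
  have hw2 := abs_le.1 hw1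
  have ha2 := abs_le.1 ha
  have hmain : (n : ℤ) * Δ + 2 ^ s * Δ < Δ ^ 2 := by nlinarith
  rcases lt_trichotomy b 0 with hb0 | hb0 | hb0
  · have h1 : τ' * b ≤ -Δ ^ 2 := by
      have : b ≤ -1 := by omega
      nlinarith
    linarith [hw2.1, ha2.2]
  · rw [hb0] at hi ⊢
    simpa using hi
  · exfalso
    have h1 : Δ ^ 2 ≤ τ * b := by
      have : 1 ≤ b := by omega
      nlinarith
    linarith [hw2.2, ha2.1]

end Pool.Agent.Helper33.SQ
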